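import Pool.Agent.Work.MP_a0c695_csl.All

/-!
# MP_a0c695_ag: every rational number in `[2, 5/2)` is a Chern slope

Every rational number in `[2, 5/2)` is the Chern slope of arbitrarily large complex line
arrangements with only double and triple points (same setting and formulas as in the problem).
-/

set_option autoImplicit false
open scoped Classical

namespace Pool.Agent.Results.MP_a0c695_ag.ExactSlopes

theorem result :
    ∀ x : ℚ, 2 ≤ x → x < 5 / 2 → ∀ N : ℕ,
      ∃ A : Finset (Projectivization ℂ (Fin 3 → ℂ)),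
        N ≤ A.card ∧ 3 ≤ A.card ∧
        (∀ p : Projectivization ℂ (Fin 3 → ℂ),
          (A.filter (fun ℓ => dotProduct ℓ.rep p.rep = 0)).card + 2 ≤ A.card) ∧
        (∀ p : Projectivization ℂ (Fin 3 → ℂ),
          (A.filter (fun ℓ => dotProduct ℓ.rep p.rep = 0)).card ≤ 3) ∧
        (x : ℝ) = (9 - 5 * (A.card : ℝ) +
              ∑ᶠ p : Projectivization ℂ (Fin 3 → ℂ),
                (if 2 ≤ (A.filter (fun ℓ => dotProduct ℓ.rep p.rep = 0)).card
                 then 3 * ((A.filter (fun ℓ => dotProduct ℓ.rep p.rep = 0)).card : ℝ) - 4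
                 else 0)) /
            (3 - 2 * (A.card : ℝ) +
              ∑ᶠ p : Projectivization ℂ (Fin 3 → ℂ),
                (if 2 ≤ (A.filter (fun ℓ => dotProduct ℓ.rep p.rep = 0)).card
                 then ((A.filter (fun ℓ => dotProduct ℓ.rep p.rep = 0)).card : ℝ) - 1
                 else 0)) := by
  intro x h2 h5 N
  obtain ⟨A, hN, ⟨hA3, hA⟩, h3, hs⟩ := Pool.CSL.all_RAT x h2 h5 N
  have hm : ∀ (A : Finset Pool.CSL.PL) (p : Pool.CSL.PL),
      (A.filter (fun ℓ => dotProduct ℓ.rep p.rep = 0)).card = Pool.CSL.mult A p := fun A p => by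
    unfold Pool.CSL.mult Pool.CSL.On
    congr
  refine ⟨A, hN, hA3, ?_⟩
  simp only [hm]
  exact ⟨hA, h3, hs.symm⟩

end Pool.Agent.Results.MP_a0c695_ag.ExactSlopes
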