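import Pool.Agent.Work.MP_a0c695_csl.All
import Pool.Agent.Work.MP_a0c695_csl.Few2

/-!
# MP_a0c695_ag: the accumulation points of the Chern slopes for a class of arrangements

Let `ψ(d) = o(d)`. Consider the complex line arrangements (same setting and formulas as in the
problem) with at most `ψ(d)` points on four or more lines, or with a point on at least half of the
lines. The accumulation points of their Chern slopes are exactly `[2, 5/2]`.
-/

set_option autoImplicit false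
open scoped Classical

namespace Pool.Agent.Results.MP_a0c695_ag.FewRichPoints

theorem result :
    ∀ ψ : ℕ → ℝ, (∀ d, 0 ≤ ψ d) →
      Filter.Tendsto (fun d : ℕ => ψ d / (d : ℝ)) Filter.atTop (nhds 0) →
      ∀ x : ℝ,
      AccPt x (Filter.principal
        {r : ℝ | ∃ A : Finset (Projectivization ℂ (Fin 3 → ℂ)),
          3 ≤ A.card ∧
          (∀ p : Projectivization ℂ (Fin 3 → ℂ),
            (A.filter (fun ℓ => dotProduct ℓ.rep p.rep = 0)).card + 2 ≤ A.card) ∧
          ((({p : Projectivization ℂ (Fin 3 → ℂ) |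
              4 ≤ (A.filter (fun ℓ => dotProduct ℓ.rep p.rep = 0)).card}).ncard : ℝ) ≤ ψ A.card ∨
            ∃ p : Projectivization ℂ (Fin 3 → ℂ),
              A.card ≤ 2 * (A.filter (fun ℓ => dotProduct ℓ.rep p.rep = 0)).card) ∧
          r = (9 - 5 * (A.card : ℝ) +
                ∑ᶠ p : Projectivization ℂ (Fin 3 → ℂ),
                  (if 2 ≤ (A.filter (fun ℓ => dotProduct ℓ.rep p.rep = 0)).card
                   then 3 * ((A.filter (fun ℓ => dotProduct ℓ.rep p.rep = 0)).card : ℝ) - 4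
                   else 0)) /
              (3 - 2 * (A.card : ℝ) +
                ∑ᶠ p : Projectivization ℂ (Fin 3 → ℂ),
                  (if 2 ≤ (A.filter (fun ℓ => dotProduct ℓ.rep p.rep = 0)).card
                   then ((A.filter (fun ℓ => dotProduct ℓ.rep p.rep = 0)).card : ℝ) - 1
                   else 0))})
      ↔ x ∈ Set.Icc (2 : ℝ) (5 / 2) := by
  intro ψ hψ hlim x
  have h := Pool.CSL.F2_main Pool.CSL.all_INT Pool.CSL.all_FS Pool.CSL.all_CC Pool.CSL.all_HALF
    Pool.CSL.all_LO Pool.CSL.all_ACC Pool.CSL.all_RAT ψ hψ hlim x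
  have hm : ∀ (A : Finset Pool.CSL.PL) (p : Pool.CSL.PL),
      (A.filter (fun ℓ => dotProduct ℓ.rep p.rep = 0)).card = Pool.CSL.mult A p := fun A p => by
    unfold Pool.CSL.mult Pool.CSL.On
    congr
  simp only [hm]
  have e : {r : ℝ | ∃ A : Finset Pool.CSL.PL, (Pool.CSL.Adm A ∧
      (Pool.CSL.FewF ψ A ∨ Pool.CSL.Half A)) ∧ r = Pool.CSL.slope A} =
      {r : ℝ | ∃ A : Finset Pool.CSL.PL, 3 ≤ A.card ∧ (∀ p, Pool.CSL.mult A p + 2 ≤ A.card) ∧
        ((({p : Pool.CSL.PL | 4 ≤ Pool.CSL.mult A p}).ncard : ℝ) ≤ ψ A.card ∨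
          ∃ p, A.card ≤ 2 * Pool.CSL.mult A p) ∧
        r = (9 - 5 * (A.card : ℝ) + ∑ᶠ p : Pool.CSL.PL,
              (if 2 ≤ Pool.CSL.mult A p then 3 * (Pool.CSL.mult A p : ℝ) - 4 else 0)) /
            (3 - 2 * (A.card : ℝ) + ∑ᶠ p : Pool.CSL.PL,
              (if 2 ≤ Pool.CSL.mult A p then (Pool.CSL.mult A p : ℝ) - 1 else 0))} := by
    ext r
    constructor
    · rintro ⟨A, ⟨⟨h1, h2⟩, h3⟩, h4⟩
      exact ⟨A, h1, h2, h3, h4⟩
    · rintro ⟨A, h1, h2, h3, h4⟩
      exact ⟨A, ⟨⟨h1, h2⟩, h3⟩, h4⟩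
  rw [e] at h
  exact h

end Pool.Agent.Results.MP_a0c695_ag.FewRichPoints
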