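import Pool.Agent.Work.MP_a0c695_csl.All

/-!
# MP_a0c695_ag: Chern slopes of complex line arrangements with a point on many lines

For `1/3 ≤ α ≤ 1/2`, every accumulation point of the Chern slopes of the complex line arrangements
(same setting and formulas as in the problem) with a point on at least `α d` lines is at most
`13/6 + 1/(6 α)`.
-/

set_option autoImplicit false
open scoped Classical

namespace Pool.Agent.Results.MP_a0c695_ag.HeavyPoint

theorem result :
    ∀ α : ℝ, 1 / 3 ≤ α → α ≤ 1 / 2 → ∀ x : ℝ,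
      AccPt x (Filter.principal
        {r : ℝ | ∃ A : Finset (Projectivization ℂ (Fin 3 → ℂ)),
          3 ≤ A.card ∧
          (∀ p : Projectivization ℂ (Fin 3 → ℂ),
            (A.filter (fun ℓ => dotProduct ℓ.rep p.rep = 0)).card + 2 ≤ A.card) ∧
          (∃ p : Projectivization ℂ (Fin 3 → ℂ),
            α * (A.card : ℝ) ≤ ((A.filter (fun ℓ => dotProduct ℓ.rep p.rep = 0)).card : ℝ)) ∧
          r = (9 - 5 * (A.card : ℝ) +
                ∑ᶠ p : Projectivization ℂ (Fin 3 → ℂ),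
                  (if 2 ≤ (A.filter (fun ℓ => dotProduct ℓ.rep p.rep = 0)).card
                   then 3 * ((A.filter (fun ℓ => dotProduct ℓ.rep p.rep = 0)).card : ℝ) - 4
                   else 0)) /
              (3 - 2 * (A.card : ℝ) +
                ∑ᶠ p : Projectivization ℂ (Fin 3 → ℂ),
                  (if 2 ≤ (A.filter (fun ℓ => dotProduct ℓ.rep p.rep = 0)).card
                   then ((A.filter (fun ℓ => dotProduct ℓ.rep p.rep = 0)).card : ℝ) - 1
                   else 0))}) →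
      x ≤ 13 / 6 + 1 / (6 * α) := by
  intro α ha hb x
  have h := Pool.CSL.all_MAIN.2.2.1 α ha hb x
  have hm : ∀ (A : Finset Pool.CSL.PL) (p : Pool.CSL.PL),
      (A.filter (fun ℓ => dotProduct ℓ.rep p.rep = 0)).card = Pool.CSL.mult A p := fun A p => by
    unfold Pool.CSL.mult Pool.CSL.On
    congr
  simp only [hm]
  have e : {r : ℝ | ∃ A : Finset Pool.CSL.PL, (Pool.CSL.Adm A ∧
      ∃ p, α * A.card ≤ Pool.CSL.mult A p) ∧ r = Pool.CSL.slope A} =
      {r : ℝ | ∃ A : Finset Pool.CSL.PL, 3 ≤ A.card ∧ (∀ p, Pool.CSL.mult A p + 2 ≤ A.card) ∧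
        (∃ p, α * (A.card : ℝ) ≤ (Pool.CSL.mult A p : ℝ)) ∧
        r = (9 - 5 * (A.card : ℝ) + ∑ᶠ p : Pool.CSL.PL,
              (if 2 ≤ Pool.CSL.mult A p then 3 * (Pool.CSL.mult A p : ℝ) - 4 else 0)) /
            (3 - 2 * (A.card : ℝ) + ∑ᶠ p : Pool.CSL.PL,
              (if 2 ≤ Pool.CSL.mult A p then (Pool.CSL.mult A p : ℝ) - 1 else 0))} := by
    ext r
    constructor
    · rintro ⟨A, ⟨⟨h1, h2⟩, h3⟩, h4⟩
      exact ⟨A, h1, h2, h3, h4⟩
    · rintro ⟨A, h1, h2, h3, h4⟩
      exact ⟨A, ⟨⟨h1, h2⟩, h3⟩, h4⟩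
  rw [e] at h
  exact h

end Pool.Agent.Results.MP_a0c695_ag.HeavyPoint
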