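import Pool.Agent.Work.MP_a0c695_csl.All

/-!
# MP_a0c695_ag: Chern slopes of supersolvable complex line arrangements

Every accumulation point of the Chern slopes of the supersolvable complex line arrangements (same
setting and formulas as in the problem) is at most `(13 + √7) / 6 = 2.6076...`.
-/

set_option autoImplicit false
open scoped Classical

namespace Pool.Agent.Results.MP_a0c695_ag.Supersolvable

theorem result :
    ∀ x : ℝ,
      AccPt x (Filter.principal
        {r : ℝ | ∃ A : Finset (Projectivization ℂ (Fin 3 → ℂ)),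
          3 ≤ A.card ∧
          (∀ p : Projectivization ℂ (Fin 3 → ℂ),
            (A.filter (fun ℓ => dotProduct ℓ.rep p.rep = 0)).card + 2 ≤ A.card) ∧
          (∃ o : Projectivization ℂ (Fin 3 → ℂ),
            2 ≤ (A.filter (fun ℓ => dotProduct ℓ.rep o.rep = 0)).card ∧
            ∀ q : Projectivization ℂ (Fin 3 → ℂ),
              2 ≤ (A.filter (fun ℓ => dotProduct ℓ.rep q.rep = 0)).card →
              ∃ ℓ ∈ A, dotProduct ℓ.rep o.rep = 0 ∧ dotProduct ℓ.rep q.rep = 0) ∧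
          r = (9 - 5 * (A.card : ℝ) +
                ∑ᶠ p : Projectivization ℂ (Fin 3 → ℂ),
                  (if 2 ≤ (A.filter (fun ℓ => dotProduct ℓ.rep p.rep = 0)).card
                   then 3 * ((A.filter (fun ℓ => dotProduct ℓ.rep p.rep = 0)).card : ℝ) - 4
                   else 0)) /
              (3 - 2 * (A.card : ℝ) +
                ∑ᶠ p : Projectivization ℂ (Fin 3 → ℂ),
                  (if 2 ≤ (A.filter (fun ℓ => dotProduct ℓ.rep p.rep = 0)).card
                   then ((A.filter (fun ℓ => dotProduct ℓ.rep p.rep = 0)).card : ℝ) - 1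
                   else 0))}) →
      x ≤ (13 + Real.sqrt 7) / 6 := by
  intro x
  have h := Pool.CSL.all_MAIN.2.2.2.1 x
  have hm : ∀ (A : Finset Pool.CSL.PL) (p : Pool.CSL.PL),
      (A.filter (fun ℓ => dotProduct ℓ.rep p.rep = 0)).card = Pool.CSL.mult A p := fun A p => by
    unfold Pool.CSL.mult Pool.CSL.On
    congr
  simp only [hm]
  have e : {r : ℝ | ∃ A : Finset Pool.CSL.PL, (Pool.CSL.Adm A ∧
      ∃ o, Pool.CSL.ModPt A o) ∧ r = Pool.CSL.slope A} =
      {r : ℝ | ∃ A : Finset Pool.CSL.PL, 3 ≤ A.card ∧ (∀ p, Pool.CSL.mult A p + 2 ≤ A.card) ∧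
        (∃ o : Pool.CSL.PL, 2 ≤ Pool.CSL.mult A o ∧ ∀ q : Pool.CSL.PL, 2 ≤ Pool.CSL.mult A q →
          ∃ ℓ ∈ A, dotProduct ℓ.rep o.rep = 0 ∧ dotProduct ℓ.rep q.rep = 0) ∧
        r = (9 - 5 * (A.card : ℝ) + ∑ᶠ p : Pool.CSL.PL,
              (if 2 ≤ Pool.CSL.mult A p then 3 * (Pool.CSL.mult A p : ℝ) - 4 else 0)) /
            (3 - 2 * (A.card : ℝ) + ∑ᶠ p : Pool.CSL.PL,
              (if 2 ≤ Pool.CSL.mult A p then (Pool.CSL.mult A p : ℝ) - 1 else 0))} := by
    ext r
    constructor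
    · rintro ⟨A, ⟨⟨h1, h2⟩, h3⟩, h4⟩
      exact ⟨A, h1, h2, h3, h4⟩
    · rintro ⟨A, h1, h2, h3, h4⟩
      exact ⟨A, ⟨⟨h1, h2⟩, h3⟩, h4⟩
  rw [e] at h
  exact h

end Pool.Agent.Results.MP_a0c695_ag.Supersolvable
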